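import Pool.Agent.H43.PJ.H76.TP.SvBB
import Pool.Agent.H43.PJ.H91.TQ.SLow
import Pool.Agent.H43.PJ.M65

/-!
# TL SvP: the two-sided sieve pair (`SvI` of `H46/TPQ/Defs.lean`) from `sieve_bb` and `sieve_low`

`e10` = min of the two (`sieve_bb (1/8) (ε/8)`, `sieve_low e4 (ε/8)`), `C` = max; `B0` = max of the two for the exponents `A' = max (A + 2) 4` (and `sieve_low` with `A' + 2`).  `R = ⌊L^B⌋`.  `S, kS` from `sieve_bb`, `T, g, kT0, Q` from `sieve_low`, `kT = min kT0 kS`.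
* `lam_mean`: `|∑_{m ∈ [a,b)} lamR R m - (b - a)| ≤ R³` (proof: `TpinA_mean` in `H91/TQ/TpinA.lean`, private, copy it with `TpinA_card`, `TpinA_ramS`).
* `lam_abs`: `∑_{m ∈ [iH, (i+1)H)} |lamR R m| ≤ H L` for `i ≥ 1`, `H ≥ N^(1/8)` (Cauchy-Schwarz and `lamR_blk` of `H43/TP/LamSq.lean`, `Rn B N = ⌊L^B⌋`).
* covering: `h = ⌈N^(1/8)⌉` (`N^(1/8) ≤ h ≤ 2 N^(1/8)`).  For `x ≥ 1`, `l ≥ N^(1/4)` the blocks `[ih, (i+1)h) ⊆ (x, x+l]` (`i ≥ 1`) cover all but at most `2h` elements; let `n` be their number, `l - 2h ≤ n h ≤ l`.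
  `∑_{(x,x+l]} rg ≤ 2h + ∑_{blocks} S ≤ 2h + n (kS (h + R³) + h/L^A') ≤ kS l + 2h + l R³/h + l/L^A' ≤ kS l + (ε/2) l/L` (`α = 0` in the `Bs` bound: `‖Bs (S - kS lamR) h i 0‖ = |∑_{blk} (S - kS lamR)|`, `0 ≤ kS ≤ 1`, `L^A' ≥ 8L/ε`: `A' ≥ 2`, `L ≥ 8/ε`);
  `∑_{(x,x+l]} rg ≥ ∑_{blocks} T ≥ n (kT0 (h - R³)... - h/L^A') ≥ kT0 l - 2h - l R³/h - l/L^A'` (`|kT0| ≤ 1`).
  With the given inequalities `kS l ≤ ∑ rg + (ε/8) l/L`, `∑ rg ≤ kT0 l + (ε/8) l/L` this is `SvI` for `kS, kT0`, and (with `x = 1`, `l` arbitrarily large, or just `l = N`) `kT0 - kS ≤ 2 (2h/N + R³/h + L^(-A')) ≤ 6/L^A'`, so `|kT - kT0| ≤ 6/L^A'`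
  and `|kT l - ∑ rg| ≤ |kT0 l - ∑ rg| + 6 l/L^A' ≤ ε l/L`; `‖Bs (T - kT lamR)‖ ≤ ‖Bs (T - kT0 lamR)‖ + |kT - kT0| ∑_{blk} |lamR| ≤ H/L^(A+2) + 6 H L/L^A'' ≤ H/L^A` (choose the exponents accordingly, e.g. all black boxes with exponent `A + 6`).
-/

set_option autoImplicit false

namespace Pool.Agent.H91.TL

open Finset
open Pool.Agent.H91.PK (ee)
open Pool.Agent.H91.EHA (Lam lamR ramS)
open Pool.Agent.H53.MID (Fp Bs)
open Pool.Agent.H76.TP
open Pool.Agent.H91.TQ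
open Pool.Agent.H46.TPQ (SvI)

private theorem SvP_card (a b d : ℕ) (hab : a ≤ b) (hd : 1 ≤ d) :
    |(((Ico a b).filter (fun m => d ∣ m)).card : ℝ) - ((b : ℝ) - a) / d| ≤ 1 := by
  have hd0 : (0 : ℝ) < d := by exact_mod_cast hd
  have key : ∀ n : ℕ, (((Ico 0 n).filter (fun m => d ∣ m)).card : ℝ) = ⌈((n : ℝ) / d)⌉₊ := by
    intro n
    induction n with
    | zero => simp
    | succ n ih =>
      have h1 : Ico 0 (n + 1) = insert n (Ico 0 n) := by
        ext m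
        simp only [mem_Ico, mem_insert]
        omega
      have hn : n ∉ (Ico 0 n).filter (fun m => d ∣ m) := by
        rw [mem_filter, mem_Ico]
        omega
      rw [h1, filter_insert]
      obtain ⟨q, r, hq, hr⟩ : ∃ q r : ℕ, n = d * q + r ∧ r < d :=
        ⟨n / d, n % d, (Nat.div_add_mod n d).symm, Nat.mod_lt n hd⟩
      have hqc : (n : ℝ) = d * q + r := by exact_mod_cast hq
      have hrc : (r : ℝ) + 1 ≤ d := by exact_mod_cast hr
      have hr0 : (0 : ℝ) ≤ r := Nat.cast_nonneg r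
      by_cases hdn : d ∣ n
      · rw [if_pos hdn, card_insert_of_notMem hn]
        push_cast
        rw [ih]
        have hr' : r = 0 := by
          rw [hq] at hdn
          have h2 : d ∣ r := (Nat.dvd_add_right (dvd_mul_right d q)).1 hdn
          exact Nat.eq_zero_of_dvd_of_lt h2 hr
        have e1 : ⌈(n : ℝ) / d⌉₊ = q := by
          have h2 : (n : ℝ) / d = (q : ℕ) := by
            rw [hqc, hr']
            field_simp
            push_cast
            ring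
          rw [h2, Nat.ceil_natCast]
        have e2 : ⌈((n : ℝ) + 1) / d⌉₊ = q + 1 := by
          rw [Nat.ceil_eq_iff (by omega)]
          constructor
          · rw [lt_div_iff₀ hd0]
            push_cast
            rw [hqc]
            nlinarith only
          · rw [div_le_iff₀ hd0, hqc, hr']
            push_cast
            have h3 : (1 : ℝ) ≤ d := by exact_mod_cast hd
            nlinarith only [hrc]
        rw [e1, e2]
        push_cast
        ring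
      · rw [if_neg hdn, ih]
        push_cast
        have hr' : 1 ≤ r := by
          rcases Nat.eq_zero_or_pos r with h2 | h2
          · exfalso
            apply hdn
            rw [hq, h2, add_zero]
            exact dvd_mul_right d q
          · exact h2
        have hr1 : (1 : ℝ) ≤ r := by exact_mod_cast hr'
        have e1 : ⌈(n : ℝ) / d⌉₊ = q + 1 := by
          rw [Nat.ceil_eq_iff (by omega)]
          constructor
          · rw [lt_div_iff₀ hd0]
            push_cast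
            rw [hqc]
            nlinarith only [hr1]
          · rw [div_le_iff₀ hd0, hqc]
            push_cast
            nlinarith only [hrc]
        have e2 : ⌈((n : ℝ) + 1) / d⌉₊ = q + 1 := by
          rw [Nat.ceil_eq_iff (by omega)]
          constructor
          · rw [lt_div_iff₀ hd0]
            push_cast
            rw [hqc]
            nlinarith only [hr1]
          · rw [div_le_iff₀ hd0, hqc]
            push_cast
            nlinarith only [hrc]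
        rw [e1, e2]
  have hsub : (Ico a b).filter (fun m => d ∣ m) =
      (Ico 0 b).filter (fun m => d ∣ m) \ (Ico 0 a).filter (fun m => d ∣ m) := by
    ext m
    simp only [mem_filter, mem_Ico, mem_sdiff]
    constructor
    · rintro ⟨⟨h1, h2⟩, h3⟩
      exact ⟨⟨⟨Nat.zero_le _, h2⟩, h3⟩, fun h4 => by omega⟩
    · rintro ⟨⟨⟨_, h2⟩, h3⟩, h4⟩
      refine ⟨⟨?_, h2⟩, h3⟩
      by_contra h5
      exact h4 ⟨⟨Nat.zero_le _, not_le.1 h5⟩, h3⟩
  have hss : (Ico 0 a).filter (fun m => d ∣ m) ⊆ (Ico 0 b).filter (fun m => d ∣ m) := by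
    intro m hm
    rw [mem_filter, mem_Ico] at hm ⊢
    exact ⟨⟨Nat.zero_le _, hm.1.2.trans_le hab⟩, hm.2⟩
  have hcard : (((Ico a b).filter (fun m => d ∣ m)).card : ℝ) = (⌈((b : ℝ) / d)⌉₊ : ℝ) - ⌈((a : ℝ) / d)⌉₊ := by
    rw [← key b, ← key a, hsub, card_sdiff_of_subset hss, Nat.cast_sub (card_le_card hss)]
  have u1 := Nat.le_ceil ((b : ℝ) / d)
  have u2 := Nat.ceil_lt_add_one (show 0 ≤ (b : ℝ) / d by positivity)
  have v1 := Nat.le_ceil ((a : ℝ) / d)
  have v2 := Nat.ceil_lt_add_one (show 0 ≤ (a : ℝ) / d by positivity)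
  rw [hcard, sub_div, abs_le]
  constructor <;> linarith only [u1, v2, u2, v1]

private theorem SvP_ramS (a b c : ℕ) (hab : a ≤ b) (hc : 1 ≤ c) :
    |∑ m ∈ Ico a b, ramS c m - (if c = 1 then ((b : ℝ) - a) else 0)| ≤ (c : ℝ) ^ 2 := by
  have hc0 : c ≠ 0 := by omega
  have h1 : ∀ m : ℕ, ramS c m = ∑ d ∈ c.divisors,
      (if d ∣ m then (d : ℝ) * (ArithmeticFunction.moebius (c / d) : ℝ) else 0) := by
    intro m
    unfold Pool.Agent.H91.EHA.ramS
    rw [← sum_filter]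
    refine sum_congr ?_ fun _ _ => rfl
    ext d
    rw [mem_filter, Nat.mem_divisors, Nat.mem_divisors, Nat.dvd_gcd_iff]
    constructor
    · rintro ⟨⟨h2, h3⟩, _⟩
      exact ⟨⟨h2, hc0⟩, h3⟩
    · rintro ⟨⟨h2, _⟩, h3⟩
      exact ⟨⟨h2, h3⟩, Nat.gcd_ne_zero_left hc0⟩
  have h2 : ∑ m ∈ Ico a b, ramS c m = ∑ d ∈ c.divisors,
      (d : ℝ) * (ArithmeticFunction.moebius (c / d) : ℝ) * (((Ico a b).filter (fun m => d ∣ m)).card : ℝ) := by
    rw [sum_congr rfl fun m _ => h1 m, sum_comm]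
    refine sum_congr rfl fun d _ => ?_
    rw [← sum_filter, sum_const, nsmul_eq_mul]
    ring
  have h3 : (if c = 1 then ((b : ℝ) - a) else 0) = ∑ d ∈ c.divisors,
      (d : ℝ) * (ArithmeticFunction.moebius (c / d) : ℝ) * (((b : ℝ) - a) / d) := by
    have e1 : ∀ d ∈ c.divisors, (d : ℝ) * (ArithmeticFunction.moebius (c / d) : ℝ) * (((b : ℝ) - a) / d) =
        ((b : ℝ) - a) * (ArithmeticFunction.moebius (c / d) : ℝ) := by
      intro d hd
      have hd0 : (d : ℝ) ≠ 0 := by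
        exact_mod_cast (Nat.pos_of_mem_divisors hd).ne'
      field_simp
    rw [sum_congr rfl e1, ← mul_sum, Nat.sum_div_divisors c (fun d => (ArithmeticFunction.moebius d : ℝ))]
    have e2 : (∑ d ∈ c.divisors, ArithmeticFunction.moebius d) = if c = 1 then (1 : ℤ) else 0 := by
      have := ArithmeticFunction.coe_mul_zeta_apply (f := ArithmeticFunction.moebius) (x := c)
      rw [← this, ArithmeticFunction.moebius_mul_coe_zeta, ArithmeticFunction.one_apply]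
    have e3 : (∑ d ∈ c.divisors, (ArithmeticFunction.moebius d : ℝ)) = if c = 1 then (1 : ℝ) else 0 := by
      have := congrArg (fun z : ℤ => (z : ℝ)) e2
      push_cast at this
      exact this
    rw [e3]
    split_ifs <;> simp
  rw [h2, h3, ← sum_sub_distrib]
  have h4 : ∀ d ∈ c.divisors, |(d : ℝ) * (ArithmeticFunction.moebius (c / d) : ℝ) *
      (((Ico a b).filter (fun m => d ∣ m)).card : ℝ) -
      (d : ℝ) * (ArithmeticFunction.moebius (c / d) : ℝ) * (((b : ℝ) - a) / d)| ≤ c := by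
    intro d hd
    have hd1 : 1 ≤ d := Nat.pos_of_mem_divisors hd
    have hdc : (d : ℝ) ≤ c := by exact_mod_cast Nat.divisor_le hd
    rw [← mul_sub, abs_mul, abs_mul]
    have h5 : |(ArithmeticFunction.moebius (c / d) : ℝ)| ≤ 1 := by
      have := ArithmeticFunction.abs_moebius_le_one (n := c / d)
      exact_mod_cast this
    have h6 := SvP_card a b d hab hd1
    have h7 : |(d : ℝ)| = d := abs_of_nonneg (Nat.cast_nonneg d)
    rw [h7]
    calc (d : ℝ) * |(ArithmeticFunction.moebius (c / d) : ℝ)| *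
          |(((Ico a b).filter (fun m => d ∣ m)).card : ℝ) - ((b : ℝ) - a) / d|
        ≤ (d : ℝ) * 1 * 1 := by
          refine mul_le_mul (mul_le_mul_of_nonneg_left h5 (Nat.cast_nonneg d)) h6 (abs_nonneg _) ?_
          positivity
      _ ≤ c := by rw [mul_one, mul_one]; exact hdc
  refine (abs_sum_le_sum_abs _ _).trans ((sum_le_sum h4).trans ?_)
  rw [sum_const, nsmul_eq_mul, sq]
  refine mul_le_mul_of_nonneg_right ?_ (Nat.cast_nonneg c)
  have h8 : c.divisors.card ≤ c := by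
    calc c.divisors.card ≤ (Icc 1 c).card := card_le_card fun d hd => by
          rw [mem_Icc]
          exact ⟨Nat.pos_of_mem_divisors hd, Nat.divisor_le hd⟩
      _ = c := by rw [Nat.card_Icc]; omega
  exact_mod_cast h8
theorem lam_mean (a b R : ℕ) (hab : a ≤ b) (hR : 1 ≤ R) : |∑ m ∈ Ico a b, lamR R m - ((b : ℝ) - a)| ≤ (R : ℝ) ^ 3 := by
  have h1 : ∑ m ∈ Ico a b, lamR R m = ∑ c ∈ Icc 1 R,
      (ArithmeticFunction.moebius c : ℝ) / (c.totient : ℝ) * ∑ m ∈ Ico a b, ramS c m := by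
    unfold Pool.Agent.H91.EHA.lamR
    rw [sum_comm]
    refine sum_congr rfl fun c _ => ?_
    rw [mul_sum]
  have h2 : ((b : ℝ) - a) = ∑ c ∈ Icc 1 R,
      (ArithmeticFunction.moebius c : ℝ) / (c.totient : ℝ) * (if c = 1 then ((b : ℝ) - a) else 0) := by
    rw [sum_eq_single 1]
    · simp
    · intro c _ hc
      rw [if_neg hc, mul_zero]
    · intro h
      exfalso
      apply h
      rw [mem_Icc]
      exact ⟨le_rfl, hR⟩
  have h3 : |∑ m ∈ Ico a b, lamR R m - ((b : ℝ) - a)| ≤ (R : ℝ) ^ 3 := by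
    rw [h1]
    have h2' : (∑ c ∈ Icc 1 R,
        (ArithmeticFunction.moebius c : ℝ) / (c.totient : ℝ) * ∑ m ∈ Ico a b, ramS c m) - ((b : ℝ) - a) =
        ∑ c ∈ Icc 1 R, ((ArithmeticFunction.moebius c : ℝ) / (c.totient : ℝ) * ∑ m ∈ Ico a b, ramS c m -
        (ArithmeticFunction.moebius c : ℝ) / (c.totient : ℝ) * (if c = 1 then ((b : ℝ) - a) else 0)) := by
      rw [sum_sub_distrib, ← h2]
    rw [h2']
    have h4 : ∀ c ∈ Icc 1 R, |(ArithmeticFunction.moebius c : ℝ) / (c.totient : ℝ) * ∑ m ∈ Ico a b, ramS c m -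
        (ArithmeticFunction.moebius c : ℝ) / (c.totient : ℝ) * (if c = 1 then ((b : ℝ) - a) else 0)| ≤ (R : ℝ) ^ 2 := by
      intro c hc
      rw [mem_Icc] at hc
      rw [← mul_sub, abs_mul]
      have h5 : |(ArithmeticFunction.moebius c : ℝ) / (c.totient : ℝ)| ≤ 1 := by
        rw [abs_div]
        have h6 : |(ArithmeticFunction.moebius c : ℝ)| ≤ 1 := by
          have := ArithmeticFunction.abs_moebius_le_one (n := c)
          exact_mod_cast this
        have h7 : (1 : ℝ) ≤ |(c.totient : ℝ)| := by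
          rw [abs_of_nonneg (Nat.cast_nonneg _)]
          exact_mod_cast Nat.totient_pos.2 (by omega)
        rw [div_le_one (by linarith only [h7])]
        linarith only [h6, h7]
      have h8 := SvP_ramS a b c hab hc.1
      have h9 : (c : ℝ) ^ 2 ≤ (R : ℝ) ^ 2 := by
        have : (c : ℝ) ≤ R := by exact_mod_cast hc.2
        exact pow_le_pow_left₀ (Nat.cast_nonneg c) this 2
      calc _ ≤ 1 * (c : ℝ) ^ 2 := mul_le_mul h5 h8 (abs_nonneg _) zero_le_one
        _ ≤ (R : ℝ) ^ 2 := by rw [one_mul]; exact h9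
    refine (abs_sum_le_sum_abs _ _).trans ((sum_le_sum h4).trans ?_)
    rw [sum_const, Nat.card_Icc, nsmul_eq_mul]
    apply le_of_eq
    push_cast [show R + 1 - 1 = R by omega]
    ring
  exact h3

theorem lam_abs (B : ℕ) : ∃ N0 : ℕ, ∀ N : ℕ, N0 ≤ N → ∀ H i : ℕ, 1 ≤ i → (N : ℝ) ^ (1 / 8 : ℝ) ≤ H →
    ∑ m ∈ Ico (i * H) ((i + 1) * H), |lamR ⌊Real.log N ^ B⌋₊ m| ≤ H * Real.log N := by
  obtain ⟨N1, h1⟩ := Pool.Agent.H43.TP.lamR_blk B
  obtain ⟨N2, h2⟩ := Pool.Agent.H76.GB.log_pow_le (1 / 8) 1 (by norm_num) (by norm_num) (2 * B)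
  refine ⟨max N1 N2, fun N hN H i hi hH => ?_⟩
  have h3 := h1 N ((le_max_left _ _).trans hN) H i hi (by
    have := h2 N ((le_max_right _ _).trans hN)
    rw [one_mul] at this
    exact this.trans hH)
  have hL : 0 ≤ Real.log N := Real.log_natCast_nonneg N
  have h4 := sum_mul_sq_le_sq_mul_sq (Ico (i * H) ((i + 1) * H)) (fun _ => (1 : ℝ))
    (fun m => |lamR ⌊Real.log N ^ B⌋₊ m|)
  have h5 : ∑ m ∈ Ico (i * H) ((i + 1) * H), (1 : ℝ) ^ 2 = H := by
    rw [one_pow, sum_const, Nat.card_Ico, nsmul_eq_mul, mul_one, Nat.add_mul, one_mul, Nat.add_sub_cancel_left]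
  have h6 : ∑ m ∈ Ico (i * H) ((i + 1) * H), |lamR ⌊Real.log N ^ B⌋₊ m| ^ 2 ≤ H * Real.log N ^ 2 := by
    refine le_trans (le_of_eq ?_) h3
    exact sum_congr rfl fun m _ => sq_abs _
  simp only [one_mul] at h4
  rw [h5] at h4
  have h7 : (∑ m ∈ Ico (i * H) ((i + 1) * H), |lamR ⌊Real.log N ^ B⌋₊ m|) ^ 2 ≤ (H * Real.log N) ^ 2 := by
    refine h4.trans ((mul_le_mul_of_nonneg_left h6 (Nat.cast_nonneg H)).trans (le_of_eq ?_))
    ring
  exact (abs_le_of_sq_le_sq' h7 (by positivity)).2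

/-- the block sums at `α = 0` -/
private theorem SvP_blk {G : ℕ → ℝ} {k E : ℝ} {R H i : ℕ} (hR : 1 ≤ R) (hk : |k| ≤ 1)
    (hB : ‖Bs (fun m => G m - k * lamR R m) H i 0‖ ≤ E) :
    |∑ m ∈ Ico (i * H) ((i + 1) * H), G m - k * H| ≤ (R : ℝ) ^ 3 + E := by
  have h1 : Bs (fun m => G m - k * lamR R m) H i 0 =
      ((∑ m ∈ Ico (i * H) ((i + 1) * H), (G m - k * lamR R m) : ℝ) : ℂ) := by
    unfold Pool.Agent.H53.MID.Bs
    rw [Complex.ofReal_sum]
    refine sum_congr rfl fun m _ => ?_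
    have : ee (-((m : ℝ) * 0)) = 1 := by
      unfold Pool.Agent.H91.PK.ee
      simp
    rw [this, mul_one]
  rw [h1, Complex.norm_real, Real.norm_eq_abs, sum_sub_distrib, ← mul_sum] at hB
  have h2 := lam_mean (i * H) ((i + 1) * H) R (Nat.mul_le_mul_right H (Nat.le_succ i)) hR
  have h3 : (((i + 1) * H : ℕ) : ℝ) - ((i * H : ℕ) : ℝ) = H := by
    push_cast
    ring
  rw [h3] at h2
  have h4 : |k * (∑ m ∈ Ico (i * H) ((i + 1) * H), lamR R m - H)| ≤ (R : ℝ) ^ 3 := by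
    rw [abs_mul]
    calc |k| * |∑ m ∈ Ico (i * H) ((i + 1) * H), lamR R m - H| ≤ 1 * (R : ℝ) ^ 3 :=
          mul_le_mul hk h2 (abs_nonneg _) zero_le_one
      _ = _ := one_mul _
  have h5 : ∑ m ∈ Ico (i * H) ((i + 1) * H), G m - k * H =
      (∑ m ∈ Ico (i * H) ((i + 1) * H), G m - k * ∑ m ∈ Ico (i * H) ((i + 1) * H), lamR R m) +
      k * (∑ m ∈ Ico (i * H) ((i + 1) * H), lamR R m - H) := by ring
  rw [h5]
  refine (abs_add_le _ _).trans ?_
  linarith only [hB, h4]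

/-- sum over consecutive blocks -/
private theorem SvP_blks {G : ℕ → ℝ} {k E : ℝ} {h i0 : ℕ} (hi0 : 1 ≤ i0)
    (hb : ∀ i, 1 ≤ i → |∑ m ∈ Ico (i * h) ((i + 1) * h), G m - k * h| ≤ E) (n : ℕ) :
    |∑ m ∈ Ico (i0 * h) ((i0 + n) * h), G m - k * (n * h)| ≤ n * E := by
  induction n with
  | zero => simp
  | succ n ih =>
    have h1 : ∑ m ∈ Ico (i0 * h) ((i0 + (n + 1)) * h), G m =
        ∑ m ∈ Ico (i0 * h) ((i0 + n) * h), G m + ∑ m ∈ Ico ((i0 + n) * h) ((i0 + n + 1) * h), G m := by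
      rw [sum_Ico_consecutive _ (Nat.mul_le_mul_right h (by omega)) (Nat.mul_le_mul_right h (by omega))]
      rfl
    have h2 := hb (i0 + n) (by omega)
    rw [h1]
    push_cast
    have h3 : ∑ m ∈ Ico (i0 * h) ((i0 + n) * h), G m + ∑ m ∈ Ico ((i0 + n) * h) ((i0 + n + 1) * h), G m -
        k * (((n : ℝ) + 1) * h) = (∑ m ∈ Ico (i0 * h) ((i0 + n) * h), G m - k * (n * h)) +
        (∑ m ∈ Ico ((i0 + n) * h) ((i0 + n + 1) * h), G m - k * h) := by ring
    rw [h3]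
    refine (abs_add_le _ _).trans ?_
    linarith

private theorem SvP_rg (y k : ℕ) : 0 ≤ rg y k ∧ rg y k ≤ 1 := by
  unfold Pool.Agent.H76.TP.rg
  split_ifs <;> norm_num

/-- the covering of `(x, x + l]` by blocks -/
private theorem SvP_cov {y h x l : ℕ} (hh : 1 ≤ h) (hl : 2 * h ≤ l) :
    ∃ i0 n : ℕ, 1 ≤ i0 ∧ (n : ℝ) * h ≤ l ∧ (l : ℝ) - 2 * h ≤ n * h ∧
      (∀ m ∈ Ico (i0 * h) ((i0 + n) * h), 1 ≤ m) ∧
      ∑ m ∈ Ico (i0 * h) ((i0 + n) * h), rg y m ≤ ∑ m ∈ Ioc x (x + l), rg y m ∧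
      ∑ m ∈ Ioc x (x + l), rg y m ≤ ∑ m ∈ Ico (i0 * h) ((i0 + n) * h), rg y m + 2 * h := by
  have a1 : x / h * h ≤ x := Nat.div_mul_le_self x h
  have a2 : x < x / h * h + h := by
    have := Nat.lt_div_mul_add hh (a := x)
    exact this
  have b1 : (x + l + 1) / h * h ≤ x + l + 1 := Nat.div_mul_le_self _ h
  have b2 : x + l + 1 < (x + l + 1) / h * h + h := Nat.lt_div_mul_add hh (a := x + l + 1)
  set q := x / h with hq
  set q' := (x + l + 1) / h with hq'
  have c1 : (q + 1) * h = q * h + h := by ring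
  have c2 : q + 1 ≤ q' := by
    by_contra hc
    have h3 : q' ≤ q := by omega
    have h4 : q' * h ≤ q * h := Nat.mul_le_mul_right h h3
    omega
  obtain ⟨n, hn⟩ := Nat.exists_eq_add_of_le c2
  rw [hn] at b1 b2
  have c4 : n * h + (q + 1) * h = (q + 1 + n) * h := by ring
  have d0 : Ioc x (x + l) = Ico (x + 1) (x + l + 1) := by
    ext m
    rw [mem_Ioc, mem_Ico]
    omega
  have d1 := sum_Ico_consecutive (rg y) (show x + 1 ≤ (q + 1) * h by omega)
    (show (q + 1) * h ≤ (q + 1 + n) * h from Nat.mul_le_mul_right h (by omega))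
  have d2 := sum_Ico_consecutive (rg y) (show x + 1 ≤ (q + 1 + n) * h by omega)
    (show (q + 1 + n) * h ≤ x + l + 1 by omega)
  have hs : ∀ a b : ℕ, a ≤ b → 0 ≤ ∑ m ∈ Ico a b, rg y m ∧ ∑ m ∈ Ico a b, rg y m ≤ (b : ℝ) - a := by
    intro a b hab
    refine ⟨sum_nonneg fun m _ => (SvP_rg y m).1, ?_⟩
    refine (sum_le_sum fun m _ => (SvP_rg y m).2).trans (le_of_eq ?_)
    rw [sum_const, Nat.card_Ico, nsmul_eq_mul, mul_one, Nat.cast_sub hab]
  have e1 := hs (x + 1) ((q + 1) * h) (by omega)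
  have e2 := hs ((q + 1 + n) * h) (x + l + 1) (by omega)
  have f1 : (((q + 1) * h : ℕ) : ℝ) ≤ x + h := by
    have : (q + 1) * h ≤ x + h := by omega
    exact_mod_cast this
  have f2 : ((x + l + 1 : ℕ) : ℝ) ≤ ((q + 1 + n) * h : ℕ) + h := by
    have : x + l + 1 ≤ (q + 1 + n) * h + h := by omega
    exact_mod_cast this
  refine ⟨q + 1, n, Nat.le_add_left 1 q, ?_, ?_, ?_, ?_, ?_⟩
  · have : n * h ≤ l := by omega
    exact_mod_cast this
  · have h3 : l ≤ n * h + 2 * h := by omega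
    have h4 : (l : ℝ) ≤ n * h + 2 * h := by exact_mod_cast h3
    linarith only [h4]
  · intro m hm
    rw [mem_Ico] at hm
    have : 1 ≤ (q + 1) * h := Nat.one_le_iff_ne_zero.2 (by positivity)
    omega
  · rw [d0, ← d2, ← d1]
    linarith only [e1, e2, e1.1, e2.1]
  · rw [d0, ← d2, ← d1]
    push_cast at e1 e2 f1 f2 ⊢
    linarith only [e1, e2, f1, f2, e1.2, e2.2]

theorem sv_pair (e4 ε : ℝ) (he4 : 0 < e4) (he4' : e4 ≤ 1 / 100) (hε : 0 < ε) (hε1 : ε ≤ 1) :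
    ∃ e10 : ℝ, 0 < e10 ∧ ∀ e1 : ℝ, 0 < e1 → e1 ≤ e10 → ∃ C : ℕ, ∀ A : ℕ, ∃ B0 : ℕ, ∀ B : ℕ, B0 ≤ B → ∃ N0 : ℕ,
      ∀ N : ℕ, N0 ≤ N → ∃ (S T g : ℕ → ℝ) (kS kT : ℝ) (Q : ℕ),
        SvI N (yN e1 N) ε S T kS kT ∧ Adm Q g T ∧ (Q : ℝ) ≤ (N : ℝ) ^ e4 ∧
        (∀ (H i : ℕ) (α : ℝ), (N : ℝ) ^ (1 / 8 : ℝ) ≤ H → 1 ≤ i →
          ‖Bs (fun m => S m - kS * lamR ⌊Real.log N ^ B⌋₊ m) H i α‖ ≤ H / Real.log N ^ A ∧
          ‖Bs (fun m => T m - kT * lamR ⌊Real.log N ^ B⌋₊ m) H i α‖ ≤ H / Real.log N ^ A) ∧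
        (∀ u w : ℕ, 1 ≤ u → (N : ℝ) ^ (1 / 8 : ℝ) ≤ w → ∑ m ∈ Ico u (u + w), S m ^ 2 ≤ w * Real.log N ^ C) ∧
        (∀ u w : ℕ, 1 ≤ u → (N : ℝ) ^ (1 / 8 : ℝ) ≤ w → ∑ m ∈ Ico u (u + w), T m ^ 2 ≤ w * Real.log N ^ C) := by
  obtain ⟨eS, heS, hS⟩ := sieve_bb (1 / 8) (ε / 8) (by norm_num) (by positivity)
  obtain ⟨eT, heT, hT⟩ := sieve_low e4 (ε / 8) he4 he4' (by positivity)
  refine ⟨min eS eT, lt_min heS heT, fun e1 he1 he1' => ?_⟩
  obtain ⟨CS, hS⟩ := hS e1 he1 (he1'.trans (min_le_left _ _))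
  obtain ⟨CT, hT⟩ := hT e1 he1 (he1'.trans (min_le_right _ _))
  refine ⟨max CS CT, fun A => ?_⟩
  obtain ⟨BS, hS⟩ := hS (A + 6)
  obtain ⟨BT, hT⟩ := hT (A + 6)
  refine ⟨max BS BT, fun B hB => ?_⟩
  obtain ⟨NS, hS⟩ := hS B ((le_max_left _ _).trans hB)
  obtain ⟨NT, hT⟩ := hT B ((le_max_right _ _).trans hB)
  obtain ⟨N1, h1⟩ := lam_abs B
  obtain ⟨N2, h2⟩ := Pool.Agent.H76.GB.log_pow_le (1 / 8) (64 / ε) (by norm_num) (by positivity) (3 * B + (A + 6))
  obtain ⟨N3, h3⟩ := Filter.eventually_atTop.1 ((Real.tendsto_log_atTop.comp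
    (tendsto_natCast_atTop_atTop (R := ℝ))).eventually_ge_atTop (8 / ε))
  refine ⟨max (max (max NS NT) (max N1 N2)) (max N3 2), fun N hN => ?_⟩
  simp only [max_le_iff] at hN
  obtain ⟨⟨⟨hNS, hNT⟩, hN1, hN2⟩, hN3, hN4⟩ := hN
  obtain ⟨S, kS, s1, s2, s3, s4, s5, s6, s7⟩ := hS N hNS
  obtain ⟨T, g, kT0, Q, t1, t2, t3, t4, t5, t6, t7, t8⟩ := hT N hNT
  have p1 := h1 N hN1
  have p2 := h2 N hN2
  have p3 : 8 / ε ≤ Real.log N := h3 N hN3
  set L := Real.log (N : ℝ) with hL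
  set X := (N : ℝ) ^ (1 / 8 : ℝ) with hX
  set R := ⌊L ^ B⌋₊ with hR
  set y := yN e1 N with hy
  have hNr : (2 : ℝ) ≤ N := by exact_mod_cast hN4
  have hN0 : (0 : ℝ) < N := by linarith only [he4, he4', hNr]
  have hL8 : 8 ≤ L := by
    refine le_trans ?_ p3
    rw [le_div_iff₀ hε]
    linarith only [hε1]
  have hL0 : 0 < L := by linarith only [he4, he4', hL8]
  have hL1 : 1 ≤ L := by linarith only [he4, he4', hL8]
  have hX1 : 1 ≤ X := Real.one_le_rpow (by linarith only [he4, he4', hNr]) (by norm_num)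
  have hX0 : 0 < X := by linarith only [he4, he4', hX1]
  have hLA : ∀ n : ℕ, 1 ≤ L ^ n := fun n => one_le_pow₀ hL1
  have hR1 : 1 ≤ R := Nat.le_floor (by simpa using hLA B)
  have hRL : (R : ℝ) ≤ L ^ B := Nat.floor_le (by positivity)
  have hR3 : (R : ℝ) ^ 3 ≤ L ^ (3 * B) := by
    calc (R : ℝ) ^ 3 ≤ (L ^ B) ^ 3 := pow_le_pow_left₀ (Nat.cast_nonneg R) hRL 3
      _ = L ^ (3 * B) := by rw [← pow_mul, mul_comm]
  set h := ⌈X⌉₊ with hh
  have hhX : X ≤ h := Nat.le_ceil X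
  have hh2 : (h : ℝ) ≤ 2 * X := by
    have := Nat.ceil_lt_add_one hX0.le
    linarith only [hX1, this]
  have hh1 : 1 ≤ h := Nat.one_le_ceil_iff.2 hX0
  have hh0 : (0 : ℝ) < h := by linarith only [he4, he4', hX1, hhX]
  have hX2 : X * X ≤ (N : ℝ) ^ (1 / 4 : ℝ) := by
    rw [hX, ← Real.rpow_add hN0]
    norm_num
  have hX8 : X * X ≤ N := by
    refine hX2.trans ?_
    calc (N : ℝ) ^ (1 / 4 : ℝ) ≤ (N : ℝ) ^ (1 : ℝ) := Real.rpow_le_rpow_of_exponent_le (by linarith only [he4, he4', hNr]) (by norm_num)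
      _ = N := Real.rpow_one _
  -- `64/ε L^(3B) L^(A+6) ≤ X`
  have hXL : 64 / ε * (L ^ (3 * B) * L ^ (A + 6)) ≤ X := by
    rw [← pow_add]
    exact p2
  have h64 : 64 ≤ 64 / ε := by
    rw [le_div_iff₀ hε]
    linarith only [hε1]
  have hXA : 64 / ε * L ^ (A + 6) ≤ X := by
    refine le_trans (mul_le_mul_of_nonneg_left ?_ (by positivity)) hXL
    exact le_mul_of_one_le_left (by positivity) (hLA _)
  have hX64 : 64 ≤ X := by
    calc (64 : ℝ) ≤ 64 / ε * 1 := by linarith only [h64]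
      _ ≤ 64 / ε * L ^ (A + 6) := mul_le_mul_of_nonneg_left (hLA _) (by positivity)
      _ ≤ X := hXA
  -- the error of one block
  set E : ℝ := (R : ℝ) ^ 3 + h / L ^ (A + 6) with hE
  have hE0 : 0 ≤ E := by positivity
  have hkS : |kS| ≤ 1 := by rw [abs_of_nonneg s3]; exact s4
  have hbS : ∀ i, 1 ≤ i → |∑ m ∈ Ico (i * h) ((i + 1) * h), S m - kS * h| ≤ E := fun i hi =>
    SvP_blk hR1 hkS (s5 h i 0 hhX hi)
  have hbT : ∀ i, 1 ≤ i → |∑ m ∈ Ico (i * h) ((i + 1) * h), T m - kT0 * h| ≤ E := fun i hi =>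
    SvP_blk hR1 t5 (t6 h i 0 hhX hi)
  -- `E ≤ 2 h/L^(A+6)`
  have hE2 : E ≤ 2 * (h / L ^ (A + 6)) := by
    have h4 : (R : ℝ) ^ 3 ≤ h / L ^ (A + 6) := by
      rw [le_div_iff₀ (by positivity)]
      calc (R : ℝ) ^ 3 * L ^ (A + 6) ≤ L ^ (3 * B) * L ^ (A + 6) :=
            mul_le_mul_of_nonneg_right hR3 (by positivity)
        _ ≤ 64 / ε * (L ^ (3 * B) * L ^ (A + 6)) :=
            le_mul_of_one_le_left (by positivity) (by linarith only [he4, he4', h64])
        _ ≤ X := hXL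
        _ ≤ h := hhX
    rw [hE]
    linarith only [h4]
  -- the covering inequality
  have hcov : ∀ x l : ℕ, 1 ≤ x → X * X ≤ l →
      kT0 * l - 3 * (l / L ^ (A + 6)) ≤ ∑ m ∈ Ioc x (x + l), rg y m ∧
      ∑ m ∈ Ioc x (x + l), rg y m ≤ kS * l + 3 * (l / L ^ (A + 6)) := by
    intro x l _ hl
    have hl0 : (0 : ℝ) < l := lt_of_lt_of_le (by positivity) hl
    have h2h : 2 * (h : ℝ) ≤ l / L ^ (A + 6) := by
      rw [le_div_iff₀ (by positivity)]
      calc 2 * (h : ℝ) * L ^ (A + 6) ≤ 4 * X * L ^ (A + 6) :=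
            mul_le_mul_of_nonneg_right (by linarith only [hh2]) (by positivity)
        _ ≤ X * (64 / ε * L ^ (A + 6)) := by
            have h5 : 4 * L ^ (A + 6) ≤ 64 / ε * L ^ (A + 6) :=
              mul_le_mul_of_nonneg_right (by linarith only [he4, he4', h64]) (by positivity)
            calc 4 * X * L ^ (A + 6) = X * (4 * L ^ (A + 6)) := by ring
              _ ≤ _ := mul_le_mul_of_nonneg_left h5 hX0.le
        _ ≤ X * X := mul_le_mul_of_nonneg_left hXA hX0.le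
        _ ≤ l := hl
    have h2l : 2 * h ≤ l := by
      have h5 : (l : ℝ) / L ^ (A + 6) ≤ l := div_le_self hl0.le (hLA _)
      have h6 : ((2 * h : ℕ) : ℝ) ≤ l := by
        push_cast
        linarith only [h2h, h5]
      exact_mod_cast h6
    obtain ⟨i0, n, v1, v2, v3, v4, v5, v6⟩ := SvP_cov (y := y) (x := x) hh1 h2l
    have w1 := SvP_blks v1 hbS n
    have w2 := SvP_blks v1 hbT n
    have w3 : n * E ≤ 2 * (l / L ^ (A + 6)) := by
      calc n * E ≤ n * (2 * (h / L ^ (A + 6))) := mul_le_mul_of_nonneg_left hE2 (Nat.cast_nonneg n)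
        _ = 2 * (n * h / L ^ (A + 6)) := by ring
        _ ≤ 2 * (l / L ^ (A + 6)) := by
            refine mul_le_mul_of_nonneg_left ?_ (by norm_num)
            exact div_le_div_of_nonneg_right v2 (by positivity)
    have w4 : ∑ m ∈ Ico (i0 * h) ((i0 + n) * h), T m ≤ ∑ m ∈ Ico (i0 * h) ((i0 + n) * h), rg y m :=
      sum_le_sum fun m hm => t4 m (v4 m hm)
    have w5 : ∑ m ∈ Ico (i0 * h) ((i0 + n) * h), rg y m ≤ ∑ m ∈ Ico (i0 * h) ((i0 + n) * h), S m :=
      sum_le_sum fun m hm => s1 m (v4 m hm)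
    have w6 := (abs_le.1 w1).2
    have w7 := (abs_le.1 w2).1
    have w8 : kS * (n * h) ≤ kS * l := mul_le_mul_of_nonneg_left v2 s3
    have w9 : kT0 * l - kT0 * (n * h) ≤ 2 * h := by
      have h5 : kT0 * l - kT0 * (n * h) = kT0 * (l - n * h) := by ring
      rw [h5]
      calc kT0 * (l - n * h) ≤ |kT0| * (l - n * h) :=
            mul_le_mul_of_nonneg_right (le_abs_self _) (by linarith only [v2])
        _ ≤ 1 * (l - n * h) := mul_le_mul_of_nonneg_right t5 (by linarith only [v2])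
        _ ≤ 2 * h := by linarith only [v3]
    constructor <;> linarith only [h2h, v5, w3, w4, w7, w9, v6, w5, w6, w8]
  -- `3 l/L^(A+6) ≤ ε l/L`
  have hEε : ∀ l : ℕ, 3 * ((l : ℝ) / L ^ (A + 6)) ≤ ε * l / L := by
    intro l
    have h5 : 3 / L ^ (A + 6) ≤ ε / L := by
      rw [div_le_div_iff₀ (by positivity) hL0]
      have h6 : L ^ (A + 6) = L ^ (A + 4) * L * L := by ring
      have h7 : 8 ≤ ε * L := by
        rw [div_le_iff₀ hε] at p3
        linarith only [p3]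
      calc 3 * L ≤ 8 * L := by linarith only [he4, he4', hL8]
        _ ≤ (ε * L) * L := mul_le_mul_of_nonneg_right h7 hL0.le
        _ ≤ L ^ (A + 4) * (ε * L * L) := le_mul_of_one_le_left (by positivity) (hLA _)
        _ = ε * L ^ (A + 6) := by rw [h6]; ring
    calc 3 * ((l : ℝ) / L ^ (A + 6)) = 3 / L ^ (A + 6) * l := by ring
      _ ≤ ε / L * l := mul_le_mul_of_nonneg_right h5 (Nat.cast_nonneg l)
      _ = _ := by ring
  have hε8 : ∀ l : ℕ, ε / 8 * l / L ≤ ε * l / L := by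
    intro l
    refine div_le_div_of_nonneg_right ?_ hL0.le
    refine mul_le_mul_of_nonneg_right (by linarith only [hε]) (Nat.cast_nonneg l)
  have hXl : ∀ l : ℕ, X * X ≤ l → X ≤ l := by
    intro l hl
    calc X = 1 * X := (one_mul X).symm
      _ ≤ X * X := mul_le_mul_of_nonneg_right hX1 hX0.le
      _ ≤ l := hl
  have hsv : ∀ x l : ℕ, 1 ≤ x → X * X ≤ l →
      |kS * l - ∑ m ∈ Ioc x (x + l), rg y m| ≤ ε * l / L ∧
      |kT0 * l - ∑ m ∈ Ioc x (x + l), rg y m| ≤ ε * l / L := by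
    intro x l hx hl
    obtain ⟨q1, q2⟩ := hcov x l hx hl
    have q3 := s7 x l (hXl l hl)
    have q4 := t8 x l (hXl l hl)
    have q5 := hEε l
    have q6 := hε8 l
    constructor <;> rw [abs_le] <;> constructor <;> linarith only [q2, q5, q3, q6, q4, q1]
  -- the comparison of `kT0` and `kS`
  have hk : kT0 - kS ≤ 6 / L ^ (A + 6) := by
    obtain ⟨q1, q2⟩ := hcov 1 N le_rfl hX8
    have q3 : (kT0 - kS) * N ≤ 6 / L ^ (A + 6) * N := by
      have : 6 / L ^ (A + 6) * N = 6 * ((N : ℝ) / L ^ (A + 6)) := by ring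
      rw [this]
      linarith only [q1, q2]
    exact le_of_mul_le_mul_right q3 hN0
  have hApow : ∀ H : ℝ, 0 ≤ H → H / L ^ (A + 6) ≤ H / L ^ A := fun H hH =>
    div_le_div_of_nonneg_left hH (by positivity) (pow_le_pow_right₀ hL1 (by omega))
  have hC : ∀ (C : ℕ) (w : ℝ), 0 ≤ w → C ≤ max CS CT → w * L ^ C ≤ w * L ^ (max CS CT) := fun C w hw hC =>
    mul_le_mul_of_nonneg_left (pow_le_pow_right₀ hL1 hC) hw
  refine ⟨S, T, g, kS, min kT0 kS, Q, ⟨fun m hm => ⟨t4 m hm, s1 m hm⟩, hkS, ?_, min_le_right _ _, ?_⟩, t1, t3, ?_, ?_, ?_⟩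
  · rcases min_choice kT0 kS with h5 | h5 <;> rw [h5]
    · exact t5
    · exact hkS
  · intro x l hx _ hl
    have q := hsv x l hx (hX2.trans hl)
    refine ⟨q.1, ?_⟩
    rcases min_choice kT0 kS with h5 | h5 <;> rw [h5]
    · exact q.2
    · exact q.1
  · intro H i α hH hi
    have hH0 : (0 : ℝ) ≤ H := Nat.cast_nonneg H
    refine ⟨(s5 H i α hH hi).trans (hApow H hH0), ?_⟩
    have q1 := t6 H i α hH hi
    rcases le_total kT0 kS with h5 | h5
    · rw [min_eq_left h5]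
      exact q1.trans (hApow H hH0)
    · rw [min_eq_right h5]
      have q2 : Bs (fun m => T m - kS * lamR R m) H i α = Bs (fun m => T m - kT0 * lamR R m) H i α +
          ((kT0 - kS : ℝ) : ℂ) * Bs (fun m => lamR R m) H i α := by
        unfold Pool.Agent.H53.MID.Bs
        rw [mul_sum, ← sum_add_distrib]
        refine sum_congr rfl fun m _ => ?_
        push_cast
        ring
      have hee : ∀ t : ℝ, ‖ee t‖ = 1 := by
        intro t
        unfold Pool.Agent.H91.PK.ee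
        have e : 2 * Real.pi * (t : ℂ) * Complex.I = ((2 * Real.pi * t : ℝ) : ℂ) * Complex.I := by
          push_cast
          ring
        rw [e, Complex.norm_exp_ofReal_mul_I]
      have q3 : ‖Bs (fun m => lamR R m) H i α‖ ≤ H * L := by
        refine le_trans ?_ (p1 H i hi hH)
        unfold Pool.Agent.H53.MID.Bs
        refine (norm_sum_le _ _).trans (sum_le_sum fun m _ => ?_)
        rw [norm_mul, hee, mul_one, Complex.norm_real, Real.norm_eq_abs]
      have q4 : ‖((kT0 - kS : ℝ) : ℂ)‖ ≤ 6 / L ^ (A + 6) := by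
        rw [Complex.norm_real, Real.norm_eq_abs, abs_of_nonneg (by linarith only [h5])]
        exact hk
      rw [q2]
      refine (norm_add_le _ _).trans ?_
      rw [norm_mul]
      have q5 : ‖((kT0 - kS : ℝ) : ℂ)‖ * ‖Bs (fun m => lamR R m) H i α‖ ≤ 6 / L ^ (A + 6) * (H * L) :=
        mul_le_mul q4 q3 (norm_nonneg _) (by positivity)
      have q6 : H / L ^ (A + 6) + 6 / L ^ (A + 6) * (H * L) ≤ H / L ^ A := by
        have h6 : H / L ^ (A + 6) + 6 / L ^ (A + 6) * (H * L) = H * (1 + 6 * L) / L ^ (A + 6) := by ring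
        rw [h6, div_le_div_iff₀ (by positivity) (by positivity)]
        have h7 : 1 + 6 * L ≤ L ^ 6 := by
          have h8 : L * L ≤ L ^ 6 := by
            calc L * L = L ^ 2 := by ring
              _ ≤ L ^ 6 := pow_le_pow_right₀ hL1 (by norm_num)
          nlinarith only [he4', hL8, h8, he4]
        calc (H : ℝ) * (1 + 6 * L) * L ^ A ≤ H * L ^ 6 * L ^ A := by
              refine mul_le_mul_of_nonneg_right ?_ (by positivity)
              exact mul_le_mul_of_nonneg_left h7 hH0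
          _ = H * L ^ (A + 6) := by ring
      linarith only [q1, q5, q6]
  · intro u w hu hw
    exact (s6 u w hu hw).trans (hC CS w (Nat.cast_nonneg w) (le_max_left _ _))
  · intro u w hu hw
    exact (t7 u w hu hw).trans (hC CT w (Nat.cast_nonneg w) (le_max_right _ _))

end Pool.Agent.H91.TL
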